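import Pool.Agent.Helper56.RZ.GoalsB

/-!
# Taylor expansion of the twist (packet RZ-F3 of helper56)
-/

set_option autoImplicit false

open Set Filter Topology MeasureTheory

open scoped ContDiff

namespace Pool.Agent.Helper69.RZ

open Pool.Agent.Helper56.RZ

section taylor

variable {Z V : Type*} [NormedAddCommGroup Z] [NormedSpace ℝ Z] [NormedAddCommGroup V]
  [NormedSpace ℝ V]

theorem hasDerivAt_slice {F : ℝ × Z → V} (hF : Differentiable ℝ F) (z : Z) (t : ℝ) :
    HasDerivAt (fun s => F (s, z)) (fderiv ℝ F (t, z) (1, 0)) t := by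
  have h1 : HasDerivAt (fun s : ℝ => (s, z)) ((1 : ℝ), (0 : Z)) t :=
    (hasDerivAt_id t).prodMk (hasDerivAt_const t z)
  exact (hF (t, z)).hasFDerivAt.comp_hasDerivAt t h1

theorem taylor {F : ℝ × Z → V} (hF : ContDiff ℝ ∞ F) (v0 : V) (h0 : ∀ z, F (0, z) = v0)
    {K : Set Z} (hK : IsCompact K) (hout : ∀ z, z ∉ K → ∀ t, F (t, z) = v0) :
    ∃ c : ℝ, 0 ≤ c ∧ ∀ (t : ℝ) (z : Z), |t| ≤ 1 → ‖F (t, z) - v0‖ ≤ c * |t| ∧
      ‖F (t, z) - v0 - t • fderiv ℝ F (0, z) (1, 0)‖ ≤ c * t ^ 2 ∧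
      ‖fderiv ℝ F (0, z) (1, 0)‖ ≤ c := by
  have hFd : Differentiable ℝ F := hF.differentiable (by simp)
  set F1 : ℝ × Z → V := fun a => fderiv ℝ F a (1, 0) with hF1
  have hF1s : ContDiff ℝ ∞ F1 := (hF.fderiv_right (by simp)).clm_apply contDiff_const
  have hF1d : Differentiable ℝ F1 := hF1s.differentiable (by simp)
  set F2 : ℝ × Z → V := fun a => fderiv ℝ F1 a (1, 0) with hF2
  have hF2s : ContDiff ℝ ∞ F2 := (hF1s.fderiv_right (by simp)).clm_apply contDiff_const
  have hcomp : IsCompact (Icc (-1 : ℝ) 1 ×ˢ K) := isCompact_Icc.prod hK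
  obtain ⟨C1, hC1⟩ := hcomp.exists_bound_of_continuousOn hF1s.continuous.continuousOn
  obtain ⟨C2, hC2⟩ := hcomp.exists_bound_of_continuousOn hF2s.continuous.continuousOn
  have hd : ∀ z t, HasDerivAt (fun s => F (s, z)) (F1 (t, z)) t := fun z t =>
    hasDerivAt_slice hFd z t
  have hd1 : ∀ z t, HasDerivAt (fun s => F1 (s, z)) (F2 (t, z)) t := fun z t =>
    hasDerivAt_slice hF1d z t
  set c : ℝ := max 0 (max C1 C2) with hc
  have hc0 : 0 ≤ c := le_max_left _ _
  have hcC1 : C1 ≤ c := (le_max_left _ _).trans (le_max_right _ _)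
  have hcC2 : C2 ≤ c := (le_max_right _ _).trans (le_max_right _ _)
  refine ⟨c, hc0, fun t z ht => ?_⟩
  by_cases hz : z ∈ K
  · have hmem : ∀ s ∈ Icc (-|t|) |t|, (s, z) ∈ Icc (-1 : ℝ) 1 ×ˢ K := by
      intro s hs
      exact ⟨⟨by linarith [hs.1], by linarith [hs.2]⟩, hz⟩
    have h0m : (0 : ℝ) ∈ Icc (-|t|) |t| := ⟨by linarith [abs_nonneg t], abs_nonneg t⟩
    have htm : t ∈ Icc (-|t|) |t| := ⟨neg_abs_le t, le_abs_self t⟩
    have hconv : Convex ℝ (Icc (-|t|) |t|) := convex_Icc _ _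
    refine ⟨?_, ?_, (hC1 (0, z) (hmem 0 h0m)).trans hcC1⟩
    · have h1 := hconv.norm_image_sub_le_of_norm_hasDerivWithin_le (f := fun s => F (s, z))
        (f' := fun s => F1 (s, z)) (C := c) (x := 0) (y := t)
        (fun s _ => (hd z s).hasDerivWithinAt)
        (fun s hs => (hC1 (s, z) (hmem s hs)).trans hcC1) h0m htm
      simp only [h0, sub_zero, Real.norm_eq_abs] at h1
      exact h1
    · have hlip : ∀ s ∈ Icc (-|t|) |t|, ‖F1 (s, z) - F1 (0, z)‖ ≤ c * |t| := by
        intro s hs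
        have h1 := hconv.norm_image_sub_le_of_norm_hasDerivWithin_le (f := fun s => F1 (s, z))
          (f' := fun s => F2 (s, z)) (C := c) (x := 0) (y := s)
          (fun s _ => (hd1 z s).hasDerivWithinAt)
          (fun s hs => (hC2 (s, z) (hmem s hs)).trans hcC2) h0m hs
        simp only [sub_zero, Real.norm_eq_abs] at h1
        exact h1.trans (mul_le_mul_of_nonneg_left (abs_le.2 hs) hc0)
      have h2 := hconv.norm_image_sub_le_of_norm_hasDerivWithin_le
        (f := fun s => F (s, z) - s • F1 (0, z))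
        (f' := fun s => F1 (s, z) - F1 (0, z)) (C := c * |t|) (x := 0) (y := t)
        (fun s _ => by
          have h3 := (hd z s).sub ((hasDerivAt_id s).smul_const (F1 (0, z)))
          simp only [one_smul] at h3
          exact h3.hasDerivWithinAt)
        hlip h0m htm
      simp only [h0, zero_smul, sub_zero, Real.norm_eq_abs] at h2
      have e : F (t, z) - v0 - t • F1 (0, z) = F (t, z) - t • F1 (0, z) - v0 := by abel
      rw [e]
      calc ‖F (t, z) - t • F1 (0, z) - v0‖ ≤ c * |t| * |t| := h2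
        _ = c * t ^ 2 := by rw [mul_assoc, ← sq, sq_abs]
  · have hF10 : F1 (0, z) = 0 := by
      have h1 := hd z 0
      have h2 : (fun s => F (s, z)) = fun _ => v0 := funext fun s => hout z hz s
      rw [h2] at h1
      exact h1.unique (hasDerivAt_const 0 v0)
    have e : F (t, z) = v0 := hout z hz t
    refine ⟨?_, ?_, ?_⟩
    · rw [e, sub_self, norm_zero]
      positivity
    · change ‖F (t, z) - v0 - t • F1 (0, z)‖ ≤ _
      rw [e, hF10, smul_zero, sub_self, sub_zero, norm_zero]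
      positivity
    · change ‖F1 (0, z)‖ ≤ c
      rw [hF10, norm_zero]
      exact hc0

end taylor

theorem f3 (h1 : StmtF1) : StmtF3 := by
  intro N p hp d
  obtain ⟨_, hF⟩ := h1 N p hp
  obtain ⟨hHs, hXs, hqs, hqH, hHH, hH0, hHq, c0, hc0, hq⟩ := hF d
  set G : ℝ × E N → E N := fun a => d.H a.1 a.2 with hG
  set K : Set (E N) := {z | d.q z ≤ 1} with hK
  have hKc : IsCompact K := by
    apply Metric.isCompact_of_isClosed_isBounded
    · exact isClosed_le hqs.continuous continuous_const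
    · rw [isBounded_iff_forall_norm_le]
      refine ⟨c0, fun z hz => ?_⟩
      have h2 := (hq z).1
      have h3 : d.q z ≤ 1 := hz
      have h4 := norm_nonneg z
      by_contra hcon
      rw [not_le] at hcon
      nlinarith
  have hout : ∀ z, z ∉ K → ∀ t, G (t, z) = z := by
    intro z hz t
    apply hHq t z
    have : ¬ d.q z ≤ 1 := hz
    linarith
  have hGd : Differentiable ℝ G := hHs.differentiable (by simp)
  -- `H`
  have hsm1 : ContDiff ℝ ∞ (fun a : ℝ × E N => G a - a.2) := hHs.sub contDiff_snd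
  obtain ⟨c1, hc1, hT1⟩ := taylor hsm1 0 (fun z => by
    show d.H 0 z - z = 0
    rw [hH0, sub_self]) hKc (fun z hz t => by
    show G (t, z) - z = 0
    rw [hout z hz t, sub_self])
  -- the derivative
  set Φ : ℝ × E N → End N := fun a => (fderiv ℝ G a).comp (ContinuousLinearMap.inr ℝ ℝ (E N))
    with hΦ
  have hG1s : ContDiff ℝ ∞ (fderiv ℝ G) := hHs.fderiv_right (by simp)
  have hG1d : Differentiable ℝ (fderiv ℝ G) := hG1s.differentiable (by simp)
  have hΦs : ContDiff ℝ ∞ Φ := hG1s.clm_comp contDiff_const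
  have hΦ1 : ∀ t z, fderiv ℝ (d.H t) z = Φ (t, z) := by
    intro t z
    have h2 : HasFDerivAt (fun y : E N => (t, y)) (ContinuousLinearMap.inr ℝ ℝ (E N)) z :=
      hasFDerivAt_prodMk_right t z
    exact ((hGd (t, z)).hasFDerivAt.comp z h2).fderiv
  have hΦ0 : ∀ z, Φ (0, z) = 1 := by
    intro z
    rw [← hΦ1]
    have h2 : d.H 0 = fun z => z := funext hH0
    rw [h2]
    exact fderiv_fun_id
  have hΦout : ∀ z, z ∉ K → ∀ t, Φ (t, z) = 1 := by
    intro z hz t
    rw [← hΦ1]
    have hop : IsOpen Kᶜ := hKc.isClosed.isOpen_compl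
    have h2 : d.H t =ᶠ[𝓝 z] fun z => z := by
      filter_upwards [hop.mem_nhds hz] with y hy
      exact hout y hy t
    rw [h2.fderiv_eq]
    exact fderiv_fun_id
  obtain ⟨c2, hc2, hT2⟩ := taylor hΦs 1 hΦ0 hKc hΦout
  -- the mixed derivative
  have hX : ∀ z, d.X z = fderiv ℝ G (0, z) (1, 0) := by
    intro z
    have h2 := hasDerivAt_slice hGd z 0
    have h3 : HasDerivAt (fun s => G (s, z)) (d.X z) 0 := by
      have e1 : HasDerivAt (fun s : ℝ => s * Tw.be (d.q z)) (Tw.be (d.q z)) 0 := by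
        simpa using (hasDerivAt_id (0 : ℝ)).mul_const (Tw.be (d.q z))
      have e2 : HasDerivAt (fun s : ℝ => Real.cos (s * Tw.be (d.q z)) - 1) 0 0 := by
        have := (e1.cos).sub_const 1
        simpa using this
      have e3 : HasDerivAt (fun s : ℝ => Real.sin (s * Tw.be (d.q z))) (Tw.be (d.q z)) 0 := by
        have := e1.sin
        simpa using this
      have e4 := ((e2.smul_const (d.wc z • d.ec + d.wu z • d.eu)).const_add z).add
        (e3.smul_const (d.J z))
      rw [zero_smul, zero_add] at e4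
      exact e4
    exact h3.unique h2
  have hmix : ∀ z, fderiv ℝ Φ (0, z) (1, 0) = fderiv ℝ d.X z := by
    intro z
    have hsym : IsSymmSndFDerivAt ℝ G (0, z) :=
      (hHs.contDiffAt (x := ((0 : ℝ), z))).isSymmSndFDerivAt (by
        rw [minSmoothness_of_isRCLikeNormedField]
        exact WithTop.coe_le_coe.2 (le_top : (2 : ℕ∞) ≤ ⊤))
    have h2 : HasFDerivAt (fderiv ℝ G) (fderiv ℝ (fderiv ℝ G) (0, z)) (0, z) :=
      (hG1d (0, z)).hasFDerivAt
    have h3 : HasFDerivAt Φ ((ContinuousLinearMap.compL ℝ (E N) (ℝ × E N) (E N)).flip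
        (ContinuousLinearMap.inr ℝ ℝ (E N)) ∘L fderiv ℝ (fderiv ℝ G) (0, z)) (0, z) :=
      (((ContinuousLinearMap.compL ℝ (E N) (ℝ × E N) (E N)).flip
        (ContinuousLinearMap.inr ℝ ℝ (E N))).hasFDerivAt).comp (0, z) h2
    have h4 : HasFDerivAt d.X ((ContinuousLinearMap.apply ℝ (E N) ((1 : ℝ), (0 : E N))) ∘L
        (fderiv ℝ (fderiv ℝ G) (0, z) ∘L ContinuousLinearMap.inr ℝ ℝ (E N))) z := by
      have e1 : d.X = fun z => fderiv ℝ G (0, z) (1, 0) := funext hX
      rw [e1]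
      have e2 : HasFDerivAt (fun y : E N => ((0 : ℝ), y)) (ContinuousLinearMap.inr ℝ ℝ (E N)) z :=
        hasFDerivAt_prodMk_right 0 z
      exact (ContinuousLinearMap.apply ℝ (E N) ((1 : ℝ), (0 : E N))).hasFDerivAt.comp z
        (h2.comp z e2)
    rw [h3.fderiv, h4.fderiv]
    apply ContinuousLinearMap.ext
    intro v
    exact hsym (1, 0) (0, v)
  refine ⟨max 1 (max c1 c2), le_max_left _ _, fun t z ht => ?_⟩
  have hc1' : c1 ≤ max 1 (max c1 c2) := (le_max_left _ _).trans (le_max_right _ _)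
  have hc2' : c2 ≤ max 1 (max c1 c2) := (le_max_right _ _).trans (le_max_right _ _)
  obtain ⟨a1, _, _⟩ := hT1 t z ht
  obtain ⟨b1, b2, b3⟩ := hT2 t z ht
  rw [hmix] at b2 b3
  rw [← hΦ1] at b1 b2
  refine ⟨?_, b1.trans (mul_le_mul_of_nonneg_right hc2' (abs_nonneg t)),
    b2.trans (mul_le_mul_of_nonneg_right hc2' (sq_nonneg t)), b3.trans hc2'⟩
  have e : d.H t z - z = d.H t z - z - 0 := by rw [sub_zero]
  rw [e]
  exact a1.trans (mul_le_mul_of_nonneg_right hc1' (abs_nonneg t))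

end Pool.Agent.Helper69.RZ
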