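import Pool.Agent.Helper56.RZ.GoalsC

/-!
# Algebra of two splittings (packet RZ2-AL of helper56)
-/

set_option autoImplicit false

namespace Pool.Agent.Helper69.RZ

open Pool.Agent.Helper56.RZ

section
variable {A : Type} [NormedRing A]

/-- the mixed products are small -/
lemma mixed (P P' : Fin 3 → A) (R b : ℝ) (h : ∀ i j, P i * P j = if i = j then P i else 0)
    (h' : ∀ i j, P' i * P' j = if i = j then P' i else 0)
    (hR : ∀ i, ‖P i‖ ≤ R) (hR' : ∀ i, ‖P' i‖ ≤ R)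
    (h1 : ‖P' 2 * (P 0 + P 1)‖ ≤ b) (h2 : ‖(P' 1 + P' 2) * P 0‖ ≤ b)
    (h3 : ‖P' 0 * (P 1 + P 2)‖ ≤ b) (h4 : ‖(P' 0 + P' 1) * P 2‖ ≤ b) :
    ∀ i j, i ≠ j → ‖P' i * P j‖ ≤ R * b := by
  have hb : 0 ≤ b := (norm_nonneg _).trans h1
  have hR0 : 0 ≤ R := (norm_nonneg _).trans (hR 0)
  have left : ∀ (x y : A), ‖x‖ ≤ R → ‖y‖ ≤ b → ‖x * y‖ ≤ R * b := fun x y hx hy =>
    (norm_mul_le x y).trans (mul_le_mul hx hy (norm_nonneg _) hR0)
  have right : ∀ (x y : A), ‖x‖ ≤ b → ‖y‖ ≤ R → ‖x * y‖ ≤ R * b := fun x y hx hy => by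
    rw [mul_comm R b]
    exact (norm_mul_le x y).trans (mul_le_mul hx hy (norm_nonneg _) hb)
  have e00 : P 0 * P 0 = P 0 := by rw [h]; simp
  have e11 : P 1 * P 1 = P 1 := by rw [h]; simp
  have e22 : P 2 * P 2 = P 2 := by rw [h]; simp
  have e10 : P 1 * P 0 = 0 := by rw [h]; simp
  have e01 : P 0 * P 1 = 0 := by rw [h]; simp
  have e21 : P 2 * P 1 = 0 := by rw [h]; simp
  have e12 : P 1 * P 2 = 0 := by rw [h]; simp
  have f11 : P' 1 * P' 1 = P' 1 := by rw [h']; simp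
  have f12 : P' 1 * P' 2 = 0 := by rw [h']; simp
  have f10 : P' 1 * P' 0 = 0 := by rw [h']; simp
  have g20 : ‖P' 2 * P 0‖ ≤ R * b := by
    have : P' 2 * P 0 = (P' 2 * (P 0 + P 1)) * P 0 := by
      rw [mul_assoc, add_mul, e00, e10, add_zero]
    rw [this]; exact right _ _ h1 (hR 0)
  have g21 : ‖P' 2 * P 1‖ ≤ R * b := by
    have : P' 2 * P 1 = (P' 2 * (P 0 + P 1)) * P 1 := by
      rw [mul_assoc, add_mul, e01, e11, zero_add]
    rw [this]; exact right _ _ h1 (hR 1)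
  have g10 : ‖P' 1 * P 0‖ ≤ R * b := by
    have : P' 1 * P 0 = P' 1 * ((P' 1 + P' 2) * P 0) := by
      rw [← mul_assoc, mul_add, f11, f12, add_zero]
    rw [this]; exact left _ _ (hR' 1) h2
  have g01 : ‖P' 0 * P 1‖ ≤ R * b := by
    have : P' 0 * P 1 = (P' 0 * (P 1 + P 2)) * P 1 := by
      rw [mul_assoc, add_mul, e11, e21, add_zero]
    rw [this]; exact right _ _ h3 (hR 1)
  have g02 : ‖P' 0 * P 2‖ ≤ R * b := by
    have : P' 0 * P 2 = (P' 0 * (P 1 + P 2)) * P 2 := by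
      rw [mul_assoc, add_mul, e12, e22, zero_add]
    rw [this]; exact right _ _ h3 (hR 2)
  have g12 : ‖P' 1 * P 2‖ ≤ R * b := by
    have : P' 1 * P 2 = P' 1 * ((P' 0 + P' 1) * P 2) := by
      rw [← mul_assoc, mul_add, f10, f11, zero_add]
    rw [this]; exact left _ _ (hR' 1) h4
  intro i j hij
  fin_cases i <;> fin_cases j
  · exact absurd rfl hij
  · exact g01
  · exact g02
  · exact g10
  · exact absurd rfl hij
  · exact g12
  · exact g20
  · exact g21
  · exact absurd rfl hij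

lemma split (P P' : Fin 3 → A) (T T' : A) (R b : ℝ)
    (h : ∀ i j, P i * P j = if i = j then P i else 0) (hT : P 0 + P 1 + P 2 = T)
    (h' : ∀ i j, P' i * P' j = if i = j then P' i else 0) (hT' : P' 0 + P' 1 + P' 2 = T')
    (hR : ∀ i, ‖P i‖ ≤ R) (hR' : ∀ i, ‖P' i‖ ≤ R)
    (m2 : ∀ i j, i ≠ j → ‖P i * P' j‖ ≤ R * b) :
    ∀ i, ‖P i - P' i‖ ≤ 2 * R * ‖T - T'‖ + 4 * R * b := by
  have hR0 : 0 ≤ R := (norm_nonneg _).trans (hR 0)
  have hPT : ∀ i, P i * T = P i := by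
    intro i
    rw [← hT, mul_add, mul_add, h, h, h]
    fin_cases i <;> simp
  have hTP' : ∀ i, T' * P' i = P' i := by
    intro i
    rw [← hT', add_mul, add_mul, h', h', h']
    fin_cases i <;> simp
  have key : ∀ i j k : Fin 3, P 0 + P 1 + P 2 = P i + P j + P k →
      P' 0 + P' 1 + P' 2 = P' i + P' j + P' k → i ≠ j → i ≠ k →
      ‖P i - P' i‖ ≤ 2 * R * ‖T - T'‖ + 4 * R * b := by
    intro i j k hs hs' hij hik
    have e : P i - P' i = P i * (T - T') + (T - T') * P' i +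
        ((P i * P' j - P j * P' i) + (P i * P' k - P k * P' i)) := by
      have e1 : P i * (T - T') = P i - P i * T' := by rw [mul_sub, hPT]
      have e2 : (T - T') * P' i = T * P' i - P' i := by rw [sub_mul, hTP']
      rw [e1, e2, ← hT, ← hT', hs, hs']
      noncomm_ring
    have n1 : ‖P i * (T - T')‖ ≤ R * ‖T - T'‖ :=
      (norm_mul_le _ _).trans (mul_le_mul_of_nonneg_right (hR i) (norm_nonneg _))
    have n2 : ‖(T - T') * P' i‖ ≤ R * ‖T - T'‖ := by
      rw [mul_comm R]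
      exact (norm_mul_le _ _).trans (mul_le_mul_of_nonneg_left (hR' i) (norm_nonneg _))
    have n3 : ‖P i * P' j - P j * P' i‖ ≤ R * b + R * b :=
      (norm_sub_le _ _).trans (add_le_add (m2 i j hij) (m2 j i hij.symm))
    have n4 : ‖P i * P' k - P k * P' i‖ ≤ R * b + R * b :=
      (norm_sub_le _ _).trans (add_le_add (m2 i k hik) (m2 k i hik.symm))
    rw [e]
    have n5 := norm_add_le (P i * (T - T') + (T - T') * P' i)
      ((P i * P' j - P j * P' i) + (P i * P' k - P k * P' i))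
    have n6 := norm_add_le (P i * (T - T')) ((T - T') * P' i)
    have n7 := norm_add_le (P i * P' j - P j * P' i) (P i * P' k - P k * P' i)
    linarith
  intro i
  fin_cases i
  · exact key 0 1 2 rfl rfl (by decide) (by decide)
  · exact key 1 0 2 (by abel) (by abel) (by decide) (by decide)
  · exact key 2 0 1 (by abel) (by abel) (by decide) (by decide)

end

theorem al : Pool.Agent.Helper56.RZ.StmtAL := by
  intro K P P' T T' R b h hT h' hT' hR hR' h1 h2 h3 h4 h5 h6 h7 h8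
  exact split P P' T T' R b h hT h' hT' hR hR' (mixed P' P R b h' h hR' hR h5 h6 h7 h8)

end Pool.Agent.Helper69.RZ
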